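import Mathlib

/-!
# Markov-modulated Poisson processes
-/

set_option autoImplicit false

open Matrix

namespace Pool.Agent.Q211.MM

/-- The data of a Markov-modulated Poisson process of order `p`: the generator `Q` of an
irreducible Markov chain, event rates `lam ≥ 0` which are not all zero, and the stationary
distribution `pi` of `Q`. -/
structure IsMMPP {p : ℕ} (Q : Matrix (Fin p) (Fin p) ℝ) (lam pi : Fin p → ℝ) : Prop where
  /-- nonnegative rates off the diagonal -/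
  off : ∀ i j, i ≠ j → 0 ≤ Q i j
  /-- the rows of `Q` sum to zero -/
  row : ∀ i, ∑ j, Q i j = 0
  /-- irreducibility: no proper nonempty set of states is closed -/
  irr : ∀ S : Set (Fin p), S.Nonempty → S ≠ Set.univ → ∃ i ∈ S, ∃ j ∉ S, 0 < Q i j
  /-- the event rates are nonnegative -/
  lam_nonneg : ∀ i, 0 ≤ lam i
  /-- the event rates are not all zero -/
  lam_ne : ∃ i, lam i ≠ 0
  /-- the stationary distribution -/
  pi_nonneg : ∀ i, 0 ≤ pi i
  pi_sum : ∑ i, pi i = 1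
  stat : pi ᵥ* Q = 0

/-- The matrix `C = Q - D`. -/
noncomputable def C {p : ℕ} (Q : Matrix (Fin p) (Fin p) ℝ) (lam : Fin p → ℝ) :
    Matrix (Fin p) (Fin p) ℝ := Q - diagonal lam

/-- The event-stationary phase distribution `α = π D / (π D 1)`. -/
noncomputable def alpha {p : ℕ} (lam pi : Fin p → ℝ) : Fin p → ℝ :=
  fun i => pi i * lam i / ∑ j, pi j * lam j

/-- The survival function `P(T₁ > t) = η exp(C t) 1` of the first event time started from the
distribution `η`. -/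
noncomputable def survival {p : ℕ} (Q : Matrix (Fin p) (Fin p) ℝ) (lam η : Fin p → ℝ) (t : ℝ) :
    ℝ := η ⬝ᵥ (NormedSpace.exp (t • C Q lam) *ᵥ 1)

section

variable {p : ℕ} {Q : Matrix (Fin p) (Fin p) ℝ} {lam pi : Fin p → ℝ}

theorem IsMMPP.pi_pos (h : IsMMPP Q lam pi) (i : Fin p) : 0 < pi i := by
  by_contra hi
  set S : Set (Fin p) := {i | pi i ≠ 0} with hS
  have h1 : S.Nonempty := by
    by_contra hne
    have h0 : ∀ i, pi i = 0 := fun j => by
      by_contra hj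
      exact hne ⟨j, hj⟩
    have := h.pi_sum
    simp [h0] at this
  have h2 : S ≠ Set.univ := by
    intro hu
    have : i ∈ S := by rw [hu]; trivial
    exact this (le_antisymm (not_lt.1 hi) (h.pi_nonneg i))
  obtain ⟨a, ha, b, hb, hab⟩ := h.irr S h1 h2
  have hb0 : pi b = 0 := by
    by_contra hb'
    exact hb hb'
  have ha0 : 0 < pi a := lt_of_le_of_ne (h.pi_nonneg a) (Ne.symm ha)
  have h3 : ∑ i, pi i * Q i b = 0 := congrFun h.stat b
  have h4 : ∀ i ∈ Finset.univ, 0 ≤ pi i * Q i b := by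
    intro i _
    by_cases hib : i = b
    · rw [hib, hb0, zero_mul]
    · exact mul_nonneg (h.pi_nonneg i) (h.off i b hib)
  have h5 := (Finset.sum_eq_zero_iff_of_nonneg h4).1 h3 a (Finset.mem_univ a)
  exact absurd h5 (mul_pos ha0 hab).ne'

theorem IsMMPP.dirichlet (h : IsMMPP Q lam pi) (v : Fin p → ℝ) :
    ∑ i, pi i * v i * (Q *ᵥ v) i = -(1 / 2) * ∑ i, ∑ j, pi i * Q i j * (v i - v j) ^ 2 := by
  have h1 : ∑ i, ∑ j, pi i * Q i j * (v i - v j) ^ 2 =
      ∑ i, pi i * v i ^ 2 * ∑ j, Q i j - 2 * ∑ i, pi i * v i * (Q *ᵥ v) i +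
        ∑ j, v j ^ 2 * ∑ i, pi i * Q i j := by
    have h2 : ∑ j, v j ^ 2 * ∑ i, pi i * Q i j = ∑ i, ∑ j, v j ^ 2 * (pi i * Q i j) := by
      rw [Finset.sum_comm]
      refine Finset.sum_congr rfl fun j _ => ?_
      rw [Finset.mul_sum]
    rw [h2, Finset.mul_sum, ← Finset.sum_sub_distrib, ← Finset.sum_add_distrib]
    refine Finset.sum_congr rfl fun i _ => ?_
    have h3 : (Q *ᵥ v) i = ∑ j, Q i j * v j := rfl
    rw [h3, Finset.mul_sum, Finset.mul_sum, Finset.mul_sum, ← Finset.sum_sub_distrib,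
      ← Finset.sum_add_distrib]
    refine Finset.sum_congr rfl fun j _ => ?_
    ring
  have h4 : ∀ j, ∑ i, pi i * Q i j = 0 := fun j => congrFun h.stat j
  rw [h1]
  simp only [h.row, h4, mul_zero, Finset.sum_const_zero]
  ring

theorem IsMMPP.energy_nonneg (h : IsMMPP Q lam pi) (v : Fin p → ℝ) (i j : Fin p) :
    0 ≤ pi i * Q i j * (v i - v j) ^ 2 := by
  by_cases hij : i = j
  · rw [hij, sub_self]
    simp
  · exact mul_nonneg (mul_nonneg (h.pi_nonneg i) (h.off i j hij)) (sq_nonneg _)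

theorem IsMMPP.rate_pos (h : IsMMPP Q lam pi) : 0 < ∑ i, pi i * lam i := by
  obtain ⟨i, hi⟩ := h.lam_ne
  refine Finset.sum_pos' (fun j _ => mul_nonneg (h.pi_nonneg j) (h.lam_nonneg j))
    ⟨i, Finset.mem_univ i, ?_⟩
  exact mul_pos (h.pi_pos i) (lt_of_le_of_ne (h.lam_nonneg i) (Ne.symm hi))

theorem C_mulVec (v : Fin p → ℝ) (i : Fin p) : (C Q lam *ᵥ v) i = (Q *ᵥ v) i - lam i * v i := by
  unfold C
  rw [Matrix.sub_mulVec, Pi.sub_apply, Matrix.mulVec_diagonal]

theorem IsMMPP.det_ne_zero (h : IsMMPP Q lam pi) : (C Q lam).det ≠ 0 := by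
  intro hdet
  obtain ⟨v, hv, hCv⟩ := Matrix.exists_mulVec_eq_zero_iff.2 hdet
  have h1 : ∀ i, (Q *ᵥ v) i = lam i * v i := by
    intro i
    have := congrFun hCv i
    rw [C_mulVec] at this
    simpa [sub_eq_zero] using this
  have h2 := h.dirichlet v
  simp only [h1] at h2
  have h3 : 0 ≤ ∑ i, ∑ j, pi i * Q i j * (v i - v j) ^ 2 :=
    Finset.sum_nonneg fun i _ => Finset.sum_nonneg fun j _ => h.energy_nonneg v i j
  have h4 : ∀ i ∈ Finset.univ, 0 ≤ pi i * v i * (lam i * v i) := by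
    intro i _
    have := mul_nonneg (mul_nonneg (h.pi_nonneg i) (h.lam_nonneg i)) (sq_nonneg (v i))
    nlinarith
  have h5 : 0 ≤ ∑ i, pi i * v i * (lam i * v i) := Finset.sum_nonneg h4
  have h6 : ∑ i, pi i * v i * (lam i * v i) = 0 := by linarith
  have h7 : ∑ i, ∑ j, pi i * Q i j * (v i - v j) ^ 2 = 0 := by linarith
  have h8 : ∀ i j, pi i * Q i j * (v i - v j) ^ 2 = 0 := by
    intro i j
    have h9 := (Finset.sum_eq_zero_iff_of_nonneg fun i _ =>
      Finset.sum_nonneg fun j _ => h.energy_nonneg v i j).1 h7 i (Finset.mem_univ i)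
    exact (Finset.sum_eq_zero_iff_of_nonneg fun j _ => h.energy_nonneg v i j).1 h9 j
      (Finset.mem_univ j)
  obtain ⟨k, hk⟩ := h.lam_ne
  have hvk : v k = 0 := by
    have h9 := (Finset.sum_eq_zero_iff_of_nonneg h4).1 h6 k (Finset.mem_univ k)
    have hp := (h.pi_pos k).ne'
    rcases mul_eq_zero.1 h9 with h10 | h10
    · rcases mul_eq_zero.1 h10 with h11 | h11
      · exact absurd h11 hp
      · exact h11
    · rcases mul_eq_zero.1 h10 with h11 | h11
      · exact absurd h11 hk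
      · exact h11
  apply hv
  set S : Set (Fin p) := {i | v i = v k} with hS
  have hS2 : S = Set.univ := by
    by_contra hne
    obtain ⟨a, ha, b, hb, hab⟩ := h.irr S ⟨k, rfl⟩ hne
    have h9 := h8 a b
    have h10 : 0 < pi a * Q a b := mul_pos (h.pi_pos a) hab
    have h11 : v a - v b = 0 := by
      rcases mul_eq_zero.1 h9 with h12 | h12
      · exact absurd h12 h10.ne'
      · exact pow_eq_zero_iff two_ne_zero |>.1 h12
    apply hb
    have ha' : v a = v k := ha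
    show v b = v k
    linarith
  funext i
  have : i ∈ S := by rw [hS2]; trivial
  have h12 : v i = v k := this
  rw [h12, hvk]
  rfl

/-- The second question: `(π C 1)(π C⁻¹ 1) ≥ 1`. -/
theorem IsMMPP.ineq (h : IsMMPP Q lam pi) :
    1 ≤ (pi ⬝ᵥ (C Q lam *ᵥ 1)) * (pi ⬝ᵥ ((C Q lam)⁻¹ *ᵥ 1)) := by
  set g : Fin p → ℝ := -((C Q lam)⁻¹ *ᵥ 1) with hg
  have hunit : IsUnit (C Q lam).det := isUnit_iff_ne_zero.2 h.det_ne_zero
  have h1 : C Q lam *ᵥ g = -1 := by
    rw [hg, Matrix.mulVec_neg, Matrix.mulVec_mulVec, Matrix.mul_nonsing_inv _ hunit,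
      Matrix.one_mulVec]
  have h2 : ∀ i, (Q *ᵥ g) i = lam i * g i - 1 := by
    intro i
    have h3 := congrFun h1 i
    rw [C_mulVec] at h3
    simp only [Pi.neg_apply, Pi.one_apply] at h3
    linarith
  set Λ := ∑ i, pi i * lam i with hΛ
  have hΛ0 : 0 < Λ := h.rate_pos
  have h4 : ∑ i, pi i * lam i * g i = 1 := by
    have h5 : pi ⬝ᵥ (Q *ᵥ g) = 0 := by
      rw [Matrix.dotProduct_mulVec, h.stat]
      simp
    have h6 : pi ⬝ᵥ (Q *ᵥ g) = ∑ i, pi i * lam i * g i - ∑ i, pi i := by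
      unfold dotProduct
      rw [← Finset.sum_sub_distrib]
      refine Finset.sum_congr rfl fun i _ => ?_
      rw [h2]
      ring
    rw [h5, h.pi_sum] at h6
    linarith
  have h7 : ∑ i, pi i * g i * (Q *ᵥ g) i ≤ 0 := by
    rw [h.dirichlet]
    have h3 : 0 ≤ ∑ i, ∑ j, pi i * Q i j * (g i - g j) ^ 2 :=
      Finset.sum_nonneg fun i _ => Finset.sum_nonneg fun j _ => h.energy_nonneg g i j
    linarith
  have h8 : ∑ i, pi i * g i * (Q *ᵥ g) i = ∑ i, pi i * lam i * g i ^ 2 - ∑ i, pi i * g i := by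
    rw [← Finset.sum_sub_distrib]
    refine Finset.sum_congr rfl fun i _ => ?_
    rw [h2]
    ring
  have h9 : 0 ≤ ∑ i, pi i * lam i * (g i - 1 / Λ) ^ 2 :=
    Finset.sum_nonneg fun i _ => mul_nonneg (mul_nonneg (h.pi_nonneg i) (h.lam_nonneg i))
      (sq_nonneg _)
  have h10 : ∑ i, pi i * lam i * (g i - 1 / Λ) ^ 2 =
      ∑ i, pi i * lam i * g i ^ 2 - 2 / Λ * ∑ i, pi i * lam i * g i +
        (1 / Λ) ^ 2 * ∑ i, pi i * lam i := by
    rw [Finset.mul_sum, Finset.mul_sum, ← Finset.sum_sub_distrib, ← Finset.sum_add_distrib]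
    refine Finset.sum_congr rfl fun i _ => ?_
    ring
  rw [h4, ← hΛ] at h10
  have h11 : (1 / Λ) ^ 2 * Λ = 1 / Λ := by
    field_simp
  have h12 : 1 / Λ ≤ ∑ i, pi i * g i := by
    rw [h11] at h10
    have : 2 / Λ = 2 * (1 / Λ) := by ring
    rw [this] at h10
    linarith
  have h13 : pi ⬝ᵥ (C Q lam *ᵥ 1) = -Λ := by
    unfold dotProduct
    rw [hΛ, ← Finset.sum_neg_distrib]
    refine Finset.sum_congr rfl fun i _ => ?_
    rw [C_mulVec]
    have : (Q *ᵥ 1) i = 0 := by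
      rw [← h.row i]
      simp [Matrix.mulVec, dotProduct]
    rw [this, Pi.one_apply]
    ring
  have h14 : pi ⬝ᵥ ((C Q lam)⁻¹ *ᵥ 1) = -∑ i, pi i * g i := by
    have : (C Q lam)⁻¹ *ᵥ 1 = -g := by rw [hg, neg_neg]
    rw [this, dotProduct_neg]
    rfl
  rw [h13, h14, neg_mul_neg]
  calc (1 : ℝ) = Λ * (1 / Λ) := by field_simp
    _ ≤ _ := by gcongr

end

end Pool.Agent.Q211.MM
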