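import Mathlib

/-!
# The numerical part of the counterexample
-/

set_option autoImplicit false

namespace Pool.Agent.Q211.MM

/-- The weights of the cyclic shift: `12` quiet phases and `6` hot phases. -/
def w (i : Fin 18) : ℚ := if i.val < 12 then 1 else 1 / 2

/-- The iterates of the weighted shift applied to the constant vector. -/
def u : ℕ → Fin 18 → ℚ
  | 0 => fun _ => 1
  | m + 1 => fun i => w i * u m (i + 1)

/-- `24` times the difference of the two linear functionals. -/
def d (m : ℕ) : ℚ := ∑ i : Fin 18, (if i.val < 12 then -1 else 2) * u m i

theorem numeric : 1 ≤ ∑ m ∈ Finset.range 72, 18 ^ m / (m.factorial : ℚ) * d m := by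
  decide +kernel

end Pool.Agent.Q211.MM
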